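import Mathlib

/-!
# Adjustment of roots of unity

Project TD (helper214), part ADJ.
-/

set_option autoImplicit false

namespace Pool.Agent.N301.TD

open Finset

/-- **ADJ.** -/
theorem adj : ∀ (K : Type) [Field K] [IsAlgClosed K] (N n m : ℕ) (x x' : Fin n → Fin N → K) (c : K)
    (d : Fin n → K), m ≠ 0 → 1 ≤ n → (∀ i, d i ≠ 0) → c ≠ 0 →
    (∀ i j, x' i j ^ m = d i * x i j ^ m) →
    (∀ j, ∏ i, x' i j = c * ∏ i, x i j) → (∃ j, ∀ i, x i j ≠ 0) →
    ∃ (lam : Fin n → K) (eps : Fin n → Fin N → K), (∀ i, lam i ≠ 0) ∧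
      (∀ i j, eps i j ^ m = 1) ∧ (∀ j, ∏ i, eps i j = 1) ∧ ∏ i, lam i = c ∧
      ∀ i j, x' i j = lam i * eps i j * x i j := by
  classical
  intro K _ _ N n m x x' c d hm hn hd hc hxx hprod hex
  obtain ⟨j0, hj0⟩ := hex
  obtain ⟨lam, hlam⟩ : ∃ lam : Fin n → K, ∀ i, lam i = x' i j0 / x i j0 := ⟨_, fun _ => rfl⟩
  have hlm : ∀ i, lam i ^ m = d i := by
    intro i
    rw [hlam, div_pow, hxx, mul_div_assoc, div_self (pow_ne_zero _ (hj0 i)), mul_one]
  have hl0 : ∀ i, lam i ≠ 0 := by
    intro i h0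
    apply hd i
    rw [← hlm i, h0, zero_pow hm]
  have hlp : ∏ i, lam i = c := by
    have h1 : ∏ i, x i j0 ≠ 0 := Finset.prod_ne_zero_iff.2 fun i _ => hj0 i
    calc ∏ i, lam i = ∏ i, x' i j0 / x i j0 := Finset.prod_congr rfl fun i _ => hlam i
      _ = (∏ i, x' i j0) / ∏ i, x i j0 := Finset.prod_div_distrib ..
      _ = c := by rw [hprod, mul_div_assoc, div_self h1, mul_one]
  obtain ⟨e, he⟩ : ∃ e : Fin n → Fin N → K, ∀ i j, e i j =
      if x i j = 0 then 1 else x' i j / (lam i * x i j) := ⟨_, fun _ _ => rfl⟩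
  have hem : ∀ i j, e i j ^ m = 1 := by
    intro i j
    rw [he]
    split_ifs with h0
    · exact one_pow m
    · rw [div_pow, mul_pow, hlm, hxx]
      exact div_self (mul_ne_zero (hd i) (pow_ne_zero _ h0))
  have hx0 : ∀ i j, x i j = 0 → x' i j = 0 := by
    intro i j h0
    have h1 := hxx i j
    rw [h0, zero_pow hm, mul_zero] at h1
    exact pow_eq_zero_iff hm |>.1 h1
  have hex : ∀ i j, x' i j = lam i * e i j * x i j := by
    intro i j
    by_cases h0 : x i j = 0
    · rw [h0, mul_zero, hx0 i j h0]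
    · rw [he, if_neg h0]
      have := hl0 i
      field_simp
  have hj : ∀ j, ∃ eps : Fin n → K, (∀ i, eps i ^ m = 1) ∧ ∏ i, eps i = 1 ∧
      ∀ i, x' i j = lam i * eps i * x i j := by
    intro j
    by_cases hall : ∀ i, x i j ≠ 0
    · refine ⟨fun i => e i j, fun i => hem i j, ?_, fun i => hex i j⟩
      have h1 : ∏ i, x i j ≠ 0 := Finset.prod_ne_zero_iff.2 fun i _ => hall i
      calc ∏ i, e i j = ∏ i, x' i j / (lam i * x i j) :=
            Finset.prod_congr rfl fun i _ => by rw [he, if_neg (hall i)]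
        _ = (∏ i, x' i j) / ((∏ i, lam i) * ∏ i, x i j) := by
            rw [Finset.prod_div_distrib, Finset.prod_mul_distrib]
        _ = 1 := by
            rw [hprod, hlp]
            exact div_self (mul_ne_zero hc h1)
    · push Not at hall
      obtain ⟨i0, hi0⟩ := hall
      have hpm : (∏ i ∈ univ.erase i0, e i j) ^ m = 1 := by
        rw [← Finset.prod_pow]
        exact Finset.prod_eq_one fun i _ => hem i j
      have hp0 : ∏ i ∈ univ.erase i0, e i j ≠ 0 := by
        intro h0
        rw [h0, zero_pow hm] at hpm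
        exact zero_ne_one hpm
      refine ⟨fun i => if i = i0 then (∏ i ∈ univ.erase i0, e i j)⁻¹ else e i j, fun i => ?_, ?_,
        fun i => ?_⟩
      · dsimp only
        split_ifs with h
        · rw [inv_pow, hpm, inv_one]
        · exact hem i j
      · rw [← Finset.mul_prod_erase _ _ (Finset.mem_univ i0), if_pos rfl]
        have h1 : ∏ i ∈ univ.erase i0, (if i = i0 then (∏ i ∈ univ.erase i0, e i j)⁻¹ else e i j) =
            ∏ i ∈ univ.erase i0, e i j :=
          Finset.prod_congr rfl fun i hi => if_neg (Finset.ne_of_mem_erase hi)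
        rw [h1]
        exact inv_mul_cancel₀ hp0
      · dsimp only
        split_ifs with h
        · rw [h, hi0, mul_zero, hx0 i0 j hi0]
        · exact hex i j
  choose eps h1 h2 h3 using hj
  exact ⟨lam, fun i j => eps j i, hl0, fun i j => h1 j i, h2, hlp, fun i j => h3 j i⟩

end Pool.Agent.N301.TD
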