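import Pool.Agent.N214.TD.Defs

/-!
# The normal form of two diagonal forms

Project TD (helper214), part NOR.
-/

set_option autoImplicit false

namespace Pool.Agent.N301.TD

open Finset Pool.Agent.N214.TD

/-- **NOR.** -/
theorem nor : ∀ (K : Type) [Field K] [IsAlgClosed K] (N m : ℕ) (a b : Fin N → K), m ≠ 0 → 3 ≤ N →
    (∀ i j, i ≠ j → a i * b j ≠ a j * b i) →
    ∃ t s : Fin N → K, Function.Injective t ∧ (∀ j, s j ≠ 0) ∧ ∀ y : Fin N → K,
      ((∑ j, a j * y j ^ m = 0 ∧ ∑ j, b j * y j ^ m = 0) ↔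
        ∀ k : ℕ, k < 2 → ∑ j, wt t j * t j ^ k * (s j * y j) ^ m = 0) := by
  classical
  intro K _ _ N m a b hm hN hab
  have : Infinite K := IsAlgClosed.instInfinite
  obtain ⟨c, hc⟩ := Infinite.exists_notMem_finset (Finset.univ.image fun j => -a j / b j)
  have hA : ∀ j, a j + c * b j ≠ 0 := by
    intro j h0
    by_cases hb : b j = 0
    · rw [hb, mul_zero, add_zero] at h0
      obtain ⟨i, hi⟩ : ∃ i : Fin N, i ≠ j := by
        have : Nontrivial (Fin N) := Fin.nontrivial_iff_two_le.2 (by omega)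
        exact exists_ne j
      exact hab i j hi (by rw [hb, h0, mul_zero, zero_mul])
    · apply hc
      rw [Finset.mem_image]
      refine ⟨j, Finset.mem_univ j, ?_⟩
      rw [div_eq_iff hb]
      linear_combination -h0
  obtain ⟨t, ht⟩ : ∃ t : Fin N → K, ∀ j, t j = b j / (a j + c * b j) := ⟨_, fun _ => rfl⟩
  have htinj : Function.Injective t := by
    intro i j hij
    by_contra hne
    rw [ht, ht, div_eq_div_iff (hA i) (hA j)] at hij
    exact hab i j hne (by linear_combination -hij)
  have hw : ∀ j, wt t j ≠ 0 := by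
    intro j
    refine Finset.prod_ne_zero_iff.2 fun l hl => inv_ne_zero (sub_ne_zero.2 fun h => ?_)
    exact Finset.ne_of_mem_erase hl (htinj h).symm
  have hs : ∀ j, ∃ s : K, s ^ m = (a j + c * b j) / wt t j := fun j =>
    IsAlgClosed.exists_pow_nat_eq _ (Nat.pos_of_ne_zero hm)
  choose s hs using hs
  refine ⟨t, s, htinj, fun j h0 => ?_, fun y => ?_⟩
  · have h1 := hs j
    rw [h0, zero_pow hm] at h1
    exact (div_ne_zero (hA j) (hw j)) h1.symm
  · have h0 : ∑ j, wt t j * t j ^ 0 * (s j * y j) ^ m =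
        ∑ j, a j * y j ^ m + c * ∑ j, b j * y j ^ m := by
      rw [Finset.mul_sum, ← Finset.sum_add_distrib]
      refine Finset.sum_congr rfl fun j _ => ?_
      rw [mul_pow, hs]
      have := hw j
      field_simp
    have h1 : ∑ j, wt t j * t j ^ 1 * (s j * y j) ^ m = ∑ j, b j * y j ^ m := by
      refine Finset.sum_congr rfl fun j _ => ?_
      rw [mul_pow, hs, ht]
      have h2 := hw j
      have h3 := hA j
      obtain ⟨A, hA'⟩ : ∃ A, A = a j + c * b j := ⟨_, rfl⟩
      rw [← hA'] at h3 ⊢
      field_simp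
    constructor
    · rintro ⟨ha, hb⟩ k hk
      interval_cases k
      · rw [h0, ha, hb, mul_zero, add_zero]
      · rw [h1, hb]
    · intro h
      have hb : ∑ j, b j * y j ^ m = 0 := by
        rw [← h1]
        exact h 1 (by norm_num)
      refine ⟨?_, hb⟩
      have := h 0 (by norm_num)
      rw [h0, hb, mul_zero, add_zero] at this
      exact this

end Pool.Agent.N301.TD
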