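import Mathlib

/-!
# Unique factorisation of products of linear forms

Project TD (helper214), part UNI.
-/

set_option autoImplicit false

namespace Pool.Agent.N301.TD

open Finset Polynomial

/-- a polynomial of degree at most one with a root -/
theorem lin {K : Type} [Field K] (p : K[X]) (h1 : p.natDegree ≤ 1) (r : K) (hr : p.eval r = 0) :
    p = C (p.coeff 1) * (X - C r) := by
  have h2 := eq_X_add_C_of_natDegree_le_one h1
  have h3 : p.coeff 0 = -(p.coeff 1 * r) := by
    rw [h2] at hr
    simp only [eval_add, eval_mul, eval_C, eval_X] at hr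
    linear_combination hr
  calc p = C (p.coeff 1) * X + C (p.coeff 0) := h2
    _ = _ := by rw [h3]; simp only [map_neg, map_mul]; ring

/-- **UNI.** -/
theorem uni : ∀ (K : Type) [Field K] (n : ℕ) (f g : Fin n → K[X]) (c : K), c ≠ 0 →
    (∀ i, f i ≠ 0) → (∀ i, g i ≠ 0) → (∀ i, (f i).natDegree ≤ 1) → (∀ i, (g i).natDegree ≤ 1) →
    ∏ i, g i = C c * ∏ i, f i →
    ∃ (σ : Equiv.Perm (Fin n)) (d : Fin n → K), (∀ i, d i ≠ 0) ∧ ∀ i, g i = C (d i) * f (σ i) := by
  intro K _ n
  induction n with
  | zero =>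
    intro f g c hc hf hg hf1 hg1 h
    exact ⟨1, fun _ => 1, fun i => i.elim0, fun i => i.elim0⟩
  | succ n ih =>
    intro f g c hc hf hg hf1 hg1 h
    suffices hs : ∃ σ : Equiv.Perm (Fin (n + 1)), ∀ i, ∃ d : K, d ≠ 0 ∧ g i = C d * f (σ i) by
      obtain ⟨σ, hσ⟩ := hs
      choose d hd1 hd2 using hσ
      exact ⟨σ, d, hd1, hd2⟩
    by_cases hall : ∀ i, (g i).natDegree = 0
    · have hF : ∀ i, (f i).natDegree = 0 := by
        have h1 := congrArg natDegree h
        rw [natDegree_prod _ _ (fun i _ => hg i), natDegree_C_mul hc,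
          natDegree_prod _ _ (fun i _ => hf i), Finset.sum_eq_zero (fun i _ => hall i)] at h1
        intro i
        exact (Finset.sum_eq_zero_iff.1 h1.symm) i (Finset.mem_univ i)
      refine ⟨1, fun i => ?_⟩
      obtain ⟨u, hu⟩ := natDegree_eq_zero.1 (hall i)
      obtain ⟨v, hv⟩ := natDegree_eq_zero.1 (hF i)
      have hu0 : u ≠ 0 := by
        rintro rfl
        exact hg i (by rw [← hu, C_0])
      have hv0 : v ≠ 0 := by
        rintro rfl
        exact hf i (by rw [← hv, C_0])
      refine ⟨u / v, div_ne_zero hu0 hv0, ?_⟩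
      rw [Equiv.Perm.one_apply, ← hu, ← hv, ← C_mul, div_mul_cancel₀ _ hv0]
    · push Not at hall
      obtain ⟨i0, hi0⟩ := hall
      have hi1 : (g i0).natDegree = 1 := by
        have := hg1 i0
        omega
      have hdeg : (g i0).degree = 1 := by
        rw [degree_eq_natDegree (hg i0), hi1]
        rfl
      obtain ⟨r, hr⟩ := exists_root_of_degree_eq_one hdeg
      rw [IsRoot.def] at hr
      have hk : ∃ k, (f k).eval r = 0 := by
        have h1 := congrArg (eval r) h
        rw [eval_prod, Finset.prod_eq_zero (Finset.mem_univ i0) hr, eval_mul, eval_C, eval_prod] at h1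
        obtain ⟨k, -, hk⟩ := Finset.prod_eq_zero_iff.1 ((mul_eq_zero.1 h1.symm).resolve_left hc)
        exact ⟨k, hk⟩
      obtain ⟨k, hk⟩ := hk
      have eg := lin (g i0) (hg1 i0) r hr
      have ef := lin (f k) (hf1 k) r hk
      have hu : (g i0).coeff 1 ≠ 0 := by
        intro h0
        apply hg i0
        rw [eg, h0, C_0, zero_mul]
      have hv : (f k).coeff 1 ≠ 0 := by
        intro h0
        apply hf k
        rw [ef, h0, C_0, zero_mul]
      obtain ⟨d0, hd0⟩ : ∃ d0, d0 = (g i0).coeff 1 / (f k).coeff 1 := ⟨_, rfl⟩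
      have hd0n : d0 ≠ 0 := by
        rw [hd0]
        exact div_ne_zero hu hv
      have egf : g i0 = C d0 * f k := by
        rw [eg, ef]
        rw [← mul_assoc, ← C_mul, hd0, div_mul_cancel₀ _ hv]
      have hrest : ∏ i, g (i0.succAbove i) = C (c / d0) * ∏ i, f (k.succAbove i) := by
        have h1 := h
        rw [Fin.prod_univ_succAbove _ i0, Fin.prod_univ_succAbove (fun i => f i) k, egf] at h1
        have h2 : (C d0 * f k) * ∏ i, g (i0.succAbove i) =
            (C d0 * f k) * (C (c / d0) * ∏ i, f (k.succAbove i)) := by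
          rw [h1]
          have h3 : (C c : K[X]) = C d0 * C (c / d0) := by
            rw [← C_mul, mul_div_cancel₀ _ hd0n]
          rw [h3]
          ring
        exact mul_left_cancel₀ (mul_ne_zero (C_ne_zero.2 hd0n) (hf k)) h2
      obtain ⟨σ', d', hd', hσ'⟩ := ih _ _ (c / d0) (div_ne_zero hc hd0n) (fun i => hf _) (fun i => hg _)
        (fun i => hf1 _) (fun i => hg1 _) hrest
      refine ⟨(finSuccEquiv' i0).trans ((Equiv.optionCongr σ').trans (finSuccEquiv' k).symm), ?_⟩
      rw [Fin.forall_iff_succAbove i0]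
      refine ⟨⟨d0, hd0n, ?_⟩, fun i => ⟨d' i, hd' i, ?_⟩⟩
      · simpa using egf
      · simpa using hσ' i

end Pool.Agent.N301.TD
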